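import Mathlib
import Pool.Agent.Helper897.ZS.Final

set_option autoImplicit false

open Complex
open scoped NNReal

namespace Pool.Agent.Results.MP_8a09e6_an.ZeroSets

/-- A bounded Lipschitz domain: a bounded connected open set `G ⊂ ℂ` such that near each boundary
point `ζ`, after a rotation (multiplication by a unimodular `u`), the set `G` is the part of an open
box lying strictly above the graph of a Lipschitz function `ψ` (so in that box the boundary is the
graph, and `G` lies on one side of it). -/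
def IsLipschitzDomain (G : Set ℂ) : Prop :=
  Bornology.IsBounded G ∧ IsOpen G ∧ IsConnected G ∧
    ∀ ζ ∈ frontier G, ∃ (u : ℂ) (r h : ℝ) (K : ℝ≥0) (ψ : ℝ → ℝ),
      ‖u‖ = 1 ∧ 0 < r ∧ 0 < h ∧ LipschitzWith K ψ ∧
      ∀ x y : ℝ, |x| < r → |y| < h → (ζ + u * (x + y * I) ∈ G ↔ ψ x < y)

/-- `f ∈ C^γ(G)`: `f` is analytic in `G`, its `γ`-th derivative is uniformly continuous on `G`, and
on `clos G` the letter `f` denotes the continuous extension. -/
def SmoothClass (G : Set ℂ) (γ : ℕ) (f : ℂ → ℂ) : Prop :=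
  DifferentiableOn ℂ f G ∧ UniformContinuousOn (iteratedDeriv γ f) G ∧ ContinuousOn f (closure G)

/-- The family `𝒵_γ(clos G)` of zero sets of `C^γ(G)` in `clos G`. -/
def ZeroClos (G : Set ℂ) (γ : ℕ) : Set (Set ℂ) :=
  {E | ∃ f : ℂ → ℂ, SmoothClass G γ f ∧ (∃ z ∈ G, f z ≠ 0) ∧ E = {z ∈ closure G | f z = 0}}

/-- The family `𝒵_γ(∂G)` of zero sets of `C^γ(G)` on `∂G`. -/
def ZeroBdry (G : Set ℂ) (γ : ℕ) : Set (Set ℂ) :=
  {E | ∃ f : ℂ → ℂ, SmoothClass G γ f ∧ (∃ z ∈ G, f z ≠ 0) ∧ E = {z ∈ frontier G | f z = 0}}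

/-- For every bounded Lipschitz domain `G` and all `γ, γ' ≥ 1`, the classes `C^γ(G)` and `C^γ'(G)`
have the same zero sets in `clos G` (Q1) and the same zero sets on `∂G` (Q2). -/
theorem result : ∀ G : Set ℂ, IsLipschitzDomain G → ∀ γ γ' : ℕ, 1 ≤ γ → 1 ≤ γ' →
    ZeroClos G γ = ZeroClos G γ' ∧ ZeroBdry G γ = ZeroBdry G γ' :=
  fun _ hG _ _ hγ hγ' => MP8a09.zero_sets_eq hG hγ hγ'

end Pool.Agent.Results.MP_8a09e6_an.ZeroSets
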